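import Pool.Agent.Helper42.ZB.E3

/-! Project ZB: the rows of the interpolation determinant. -/

set_option autoImplicit false

namespace Pool.ZB

open Finset Pool.RA

/-- The rows: from a set `C` of at least `X` points with different first coordinates, `2 (A + 1)`
points of `C` and its shift, `A + 1` about `X / 2`, with an invertible matrix. -/
theorem rows_exist (sh : ℤ × ℤ → ℤ × ℤ) (hsh1 : ∀ v, (sh v).1 = v.1 + 1) (C : Finset (ℤ × ℤ))
    (hinj : Set.InjOn Prod.fst (C : Set (ℤ × ℤ))) (X : ℝ) (hX : 0 < X) (hcard : X ≤ (C.card : ℝ))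
    (ln : ℤ × ℤ → ℝ) (hln : ∀ v, 0 ≤ ln v) (R : ℤ × ℤ → ℚ) (hR : ∀ v, R v ≠ 0) (ρ : ℚ)
    (hρ : ρ ≠ 1) (hsh : ∀ v, R (sh v) = ρ * R v) (C0 : ℕ)
    (hC0 : ∀ v ∈ C ∪ C.image sh, |(v.1 : ℝ)| ≤ C0) :
    ∃ (A : ℕ) (f : Col A → ℤ × ℤ), Function.Injective f ∧ (∀ i, f i ∈ C ∪ C.image sh) ∧
      (∀ i, 0 ≤ (f i).1 + C0) ∧
      (rmat A (fun i => ((f i).1 + C0).toNat) (fun i => R (f i))).det ≠ 0 ∧
      X / 2 ≤ (A : ℝ) + 1 ∧ (A : ℝ) + 1 ≤ X / 2 + 1 ∧
      ∑ i, ln (f i) ≤ ∑ v ∈ C ∪ C.image sh, ln v := by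
  classical
  have hnn : ∀ v ∈ C ∪ C.image sh, 0 ≤ v.1 + C0 := by
    intro v hv
    have h1 := neg_le_of_abs_le (hC0 v hv)
    have h2 : ((-(C0 : ℤ) : ℤ) : ℝ) ≤ (v.1 : ℝ) := by push_cast; exact h1
    have h3 : -(C0 : ℤ) ≤ v.1 := by exact_mod_cast h2
    omega
  set J : Type := {v : ℤ × ℤ // v ∈ C ∪ C.image sh} with hJ
  set sh' : J → J := fun j => if h : (j : ℤ × ℤ) ∈ C then
    ⟨sh j, mem_union_right _ (mem_image_of_mem sh h)⟩ else j with hsh'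
  set C' : Finset J := univ.filter (fun j : J => (j : ℤ × ℤ) ∈ C) with hC'
  set e : J → ℕ := fun j => ((j : ℤ × ℤ).1 + C0).toNat with he
  have heinj : Set.InjOn e (C' : Set J) := by
    intro a ha b hb hab
    have ha' : (a : ℤ × ℤ) ∈ C := (mem_filter.1 (mem_coe.1 ha)).2
    have hb' : (b : ℤ × ℤ) ∈ C := (mem_filter.1 (mem_coe.1 hb)).2
    have h1 := hnn a a.2
    have h2 := hnn b b.2
    have h3 : (a : ℤ × ℤ).1 = (b : ℤ × ℤ).1 := by
      simp only [he] at hab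
      omega
    exact Subtype.ext (hinj (mem_coe.2 ha') (mem_coe.2 hb') h3)
  have hcard' : (C'.image e).card = C.card := by
    rw [card_image_of_injOn heinj]
    refine card_bij (fun j _ => (j : ℤ × ℤ)) (fun j hj => (mem_filter.1 hj).2)
      (fun a _ b _ h => Subtype.ext h) (fun v hv => ?_)
    exact ⟨⟨v, mem_union_left _ hv⟩, mem_filter.2 ⟨mem_univ _, hv⟩, rfl⟩
  have hX2 : 0 < X / 2 := by linarith
  have hc1 : 1 ≤ ⌈X / 2⌉₊ := Nat.one_le_iff_ne_zero.2 (Nat.ceil_pos.2 hX2).ne'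
  obtain ⟨A, hA⟩ : ∃ A : ℕ, A + 1 = ⌈X / 2⌉₊ := ⟨⌈X / 2⌉₊ - 1, by omega⟩
  have hA1 : X / 2 ≤ (A : ℝ) + 1 := by
    have := Nat.le_ceil (X / 2)
    rw [← hA] at this
    push_cast at this
    exact this
  have hA2 : (A : ℝ) + 1 < X / 2 + 1 := by
    have := Nat.ceil_lt_add_one hX2.le
    rw [← hA] at this
    push_cast at this
    exact this
  have hA3 : 2 * (A + 1) ≤ C.card + 1 := by
    have h1 : (2 * (A + 1) : ℝ) < C.card + 2 := by linarith
    have h2 : 2 * (A + 1) < C.card + 2 := by exact_mod_cast h1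
    omega
  have hstep : ∀ j ∈ C', e (sh' j) = e j + 1 ∧ R (sh' j : J) = ρ * R (j : J) := by
    intro j hj
    have hj' : (j : ℤ × ℤ) ∈ C := (mem_filter.1 hj).2
    have h1 : (sh' j : ℤ × ℤ) = sh j := by
      simp only [hsh', dif_pos hj']
    have h2 := hnn j j.2
    refine ⟨?_, ?_⟩
    · simp only [he]
      rw [h1, hsh1]
      omega
    · rw [h1]
      exact hsh j
  obtain ⟨f, hf, hdet⟩ := E_rank A e (fun j : J => R (j : ℤ × ℤ)) (fun j => hR j) C' sh' ρ hρ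
    hstep (by rw [hcard']; exact hA3)
  refine ⟨A, fun i => (f i : ℤ × ℤ), fun a b h => hf (Subtype.ext h), fun i => (f i).2,
    fun i => hnn _ (f i).2, hdet, hA1, hA2.le, ?_⟩
  have h1 : ∑ i, ln (f i : ℤ × ℤ) = ∑ v ∈ univ.image (fun i => (f i : ℤ × ℤ)), ln v := by
    rw [sum_image]
    exact fun a _ b _ h => hf (Subtype.ext h)
  rw [h1]
  refine sum_le_sum_of_subset_of_nonneg ?_ fun v _ _ => hln v
  intro v hv
  obtain ⟨i, _, rfl⟩ := mem_image.1 hv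
  exact (f i).2

end Pool.ZB
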