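import Pool.Agent.Helper73.ZB.CoreR0
import Pool.Agent.Helper44.ZB.Defs
import Pool.Agent.Helper93.ZB.Geom

/-! Project ZB: the contradiction at the real place. -/

set_option autoImplicit false

namespace Pool.ZB

open Finset Pool.RA

/-- The contradiction at the real place. -/
theorem core_r_aux (δ : ℝ) (hδ : 0 < δ) (hδ1 : δ ≤ 1 / 4) : ∃ W : ℝ, 1 ≤ W ∧
    ∀ (ι : Type) [Fintype ι] (r : ι → ℕ) (k x : ι → ℤ) (α w L : ℝ), Rel r k x α w L 2 →
    ∀ (I n0 : ℝ), |lam r k| ≤ Real.exp (-I) → |lam r x| ≤ Real.exp (-n0) → W ≤ n0 →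
    W ≤ w → W * w ≤ L → W * w / L ≤ α → α ≤ 1 / W → δ * L ≤ I → I ≤ L →
    12 * L * w ≤ I * n0 → False := by
  obtain ⟨D0, hD0, hgeo⟩ := geometry (δ / 2) (1 / 100) (by positivity) (by norm_num)
  refine ⟨max D0 (max 1400 (6000 / δ)), hD0.trans (le_max_left _ _), ?_⟩
  intro ι _ r k x α w L H I n0 hlk hlx hn0 hw hwL hα1 hα2 hI1 hI2 h12
  set W : ℝ := max D0 (max 1400 (6000 / δ)) with hW
  have hWD : D0 ≤ W := le_max_left _ _
  have hW1 : 1400 ≤ W := (le_max_left _ _).trans (le_max_right _ _)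
  have hW2 : 6000 / δ ≤ W := (le_max_right _ _).trans (le_max_right _ _)
  have hW0 : 0 < W := by linarith
  have hw0 : 0 < w := by linarith
  have hWw : W * 1 ≤ W * w := mul_le_mul_of_nonneg_left (by linarith) hW0.le
  have hL0 : 0 < L := by linarith
  have hI0 : 6000 ≤ I := by
    have h1 : 6000 ≤ δ * W := by
      rw [div_le_iff₀ hδ] at hW2
      linarith
    have h2 : δ * W ≤ δ * L := mul_le_mul_of_nonneg_left (by linarith) hδ.le
    linarith
  have hIpos : 0 < I := by linarith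
  obtain ⟨C, hinj, hcard, hsum, hgn, hfst⟩ := hgeo L w (I / 2) α hw0
    ((mul_le_mul_of_nonneg_right hWD hw0.le).trans hwL) (by linarith) (by linarith)
    (le_trans (div_le_div_of_nonneg_right (mul_le_mul_of_nonneg_right hWD hw0.le) hL0.le) hα1)
    (hα2.trans (one_div_le_one_div_of_le (by linarith) hWD))
  set C0 : ℕ := ⌈I / 2 / w + 1⌉₊ with hC0
  have hIw0 : 0 < I / w := by positivity
  have hIw : I / 2 / w = (I / w) / 2 := by ring
  have hC0a : I / 2 / w + 1 ≤ C0 := Nat.le_ceil _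
  have hC0b : (C0 : ℝ) ≤ (I / w) / 2 + 2 := by
    have h1 : (0 : ℝ) ≤ I / 2 / w + 1 := by positivity
    have h2 := (Nat.ceil_lt_add_one h1).le
    rw [hIw] at h2
    rw [hC0, hIw]
    linarith
  have hα1' : α ≤ 1 := hα2.trans (by
    rw [div_le_one hW0]
    linarith)
  have hα0 : 0 < α := lt_of_lt_of_le (by positivity) hα1
  have hM0 : ∀ v ∈ C, |(v.2 : ℝ)| ≤ |(v.1 : ℝ)| + 1 := by
    intro v hv
    have h1 := hgn v hv
    unfold len at h1
    have h2 : 0 ≤ |(v.1 : ℝ)| * w := by positivity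
    have h3 : 2 * L * |(v.1 : ℝ) * α - v.2| ≤ 2 * L * 1 := by linarith
    have h4 : |(v.1 : ℝ) * α - v.2| ≤ 1 := le_of_mul_le_mul_left h3 (by linarith)
    have h5 : |(v.2 : ℝ)| ≤ |(v.1 : ℝ) * α| + |(v.1 : ℝ) * α - v.2| := by
      have h6 : (v.2 : ℝ) = (v.1 : ℝ) * α - ((v.1 : ℝ) * α - v.2) := by ring
      calc |(v.2 : ℝ)| = |(v.1 : ℝ) * α - ((v.1 : ℝ) * α - v.2)| := by rw [← h6]
        _ ≤ _ := abs_sub _ _
    rw [abs_mul, abs_of_pos hα0] at h5
    have h7 : |(v.1 : ℝ)| * α ≤ |(v.1 : ℝ)| * 1 := mul_le_mul_of_nonneg_left hα1' (abs_nonneg _)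
    linarith
  have hC0' : ∀ v ∈ C ∪ C.image sh, |(v.1 : ℝ)| ≤ C0 := fun v hv => (hfst v hv).trans hC0a
  set M : ℝ := (C0 : ℝ) + 1 with hM
  have hMb : ∀ v ∈ C ∪ C.image sh, |(v.2 : ℝ)| ≤ M := by
    intro v hv
    rcases mem_union.1 hv with h | h
    · have h1 := hM0 v h
      have h2 := hC0' v hv
      linarith
    · obtain ⟨v', hv', rfl⟩ := mem_image.1 h
      have h1 := hM0 v' hv'
      have h2 := hC0' v' (mem_union_left _ hv')
      have h3 : ((sh v').2 : ℝ) = (v'.2 : ℝ) := rfl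
      rw [h3]
      linarith
  have hC00 : (0 : ℝ) ≤ C0 := by positivity
  have hIwI : I / w ≤ I / 1400 := div_le_div_of_nonneg_left hIpos.le (by norm_num) (by linarith)
  have hMI : M * Real.exp (-I) ≤ 1 := by
    have h1 : M ≤ Real.exp I := by
      have := Real.add_one_le_exp (I / 2)
      have h2 : Real.exp I = Real.exp (I / 2) * Real.exp (I / 2) := by
        rw [← Real.exp_add]
        congr 1
        ring
      rw [h2]
      nlinarith
    rw [Real.exp_neg, ← div_eq_mul_inv, div_le_one (Real.exp_pos _)]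
    exact h1
  have hlamk : |lam r k| ≤ 2 * L := by
    have := H.lamk
    linarith
  have hexpI : Real.exp (-I) ≤ 2 * L := by
    have h1 : Real.exp (-I) ≤ 1 := by
      rw [Real.exp_le_one_iff]
      linarith
    linarith
  have hXpos : 0 < (1 - 1 / 100 : ℝ) * ((I / 2) ^ 2 / (L * w)) := by
    have : (0 : ℝ) < (I / 2) ^ 2 / (L * w) := by positivity
    linarith
  obtain ⟨A, hA1, hA2, hmain⟩ := real_ineq r H.prime H.inj k x H.x0 L w I (n0 - 1) α M H.nmx
    (by have := H.lamx; linarith) H.nmk hlk hexpI (by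
      have h1 : Real.exp (-n0) * Real.exp 1 = Real.exp (-(n0 - 1)) := by
        rw [← Real.exp_add]
        congr 1
        ring
      have h2 := Real.add_one_le_exp (1 : ℝ)
      have h3 : Real.exp (-n0) * 2 ≤ Real.exp (-n0) * Real.exp 1 :=
        mul_le_mul_of_nonneg_left (by linarith) (Real.exp_pos _).le
      linarith) (by linarith) hIpos.le C hinj _ hXpos hcard sh (fun v => rfl) C0 hC0' hMb
      (by linarith) hMI
  -- the numbers
  set q : ℝ := I ^ 2 / (L * w) with hq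
  have hq0 : 0 < q := by positivity
  have hqLw : q * (L * w) = I ^ 2 := by
    rw [hq]
    field_simp
  have hqX : (1 - 1 / 100 : ℝ) * ((I / 2) ^ 2 / (L * w)) = 99 / 400 * q := by
    rw [hq]
    ring
  have hqS : (1 + 1 / 100 : ℝ) * (2 / 3) * ((I / 2) ^ 3 / (L * w)) = 101 / 1200 * (q * I) := by
    rw [hq]
    ring
  rw [hqX] at hA1 hA2
  rw [hqS] at hsum
  have hsum' : ∑ v ∈ C ∪ C.image sh, (|(v.1 : ℝ)| * w + 2 * L * |(v.1 : ℝ) * α - v.2|) ≤
      101 / 1200 * (q * I) := hsum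
  set T : ℝ := (A : ℝ) + 1 with hT
  have hT0 : 0 < T := by positivity
  have hqI : q ≤ I / w := by
    rw [hq, div_le_div_iff₀ (by positivity) hw0]
    nlinarith [mul_pos hIpos hw0]
  have hA3 : (A : ℝ) ≤ (I / w) / 8 := by linarith
  set E : ℝ := ((2 * C0 : ℕ) : ℝ) with hE
  have hE1 : E = 2 * (C0 : ℝ) := by
    rw [hE]
    push_cast
    ring
  have hE2 : E ≤ I / w + 4 := by linarith
  have hlog1 : Real.log (3 * (A : ℝ) + E + 3) ≤ 3 * A + E + 2 := by
    have h1 : (0 : ℝ) < 3 * (A : ℝ) + E + 3 := by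
      rw [hE1]
      positivity
    have := Real.log_le_sub_one_of_pos h1
    linarith
  have hlog2 : Real.log (2 * M) ≤ I / w + 5 := by
    have h1 : (0 : ℝ) < 2 * M := by positivity
    have := Real.log_le_sub_one_of_pos h1
    linarith
  have hQ : 2 * Real.log (3 * (A : ℝ) + E + 3) + 2 * ((A : ℝ) + E) + E + Real.log (2 * M) ≤
      I / 100 := by
    linarith
  have hQT := mul_le_mul_of_nonneg_left hQ (by linarith : 0 ≤ 2 * T)
  have hn1 : 1400 ≤ n0 := by linarith
  have hLam : I ^ 2 / (4 * (n0 - 1)) ≤ q * I / 40 := by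
    rw [div_le_iff₀ (by linarith), ← hqLw]
    have h1 : q * (12 * L * w) ≤ q * (I * n0) := mul_le_mul_of_nonneg_left h12 hq0.le
    have h2 : q * I * 1400 ≤ q * I * n0 := mul_le_mul_of_nonneg_left hn1 (by positivity)
    nlinarith
  have hTq : I * (99 / 800 * q) ≤ I * T := mul_le_mul_of_nonneg_left (by linarith) hIpos.le
  have hqI0 : 0 < q * I := by positivity
  nlinarith

end Pool.ZB
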