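import Pool.Agent.Helper73.ZB.Rows
import Pool.Agent.Helper42.ZB.E4
import Pool.Agent.Helper44.RA.U1
import Pool.Agent.Helper44.RA.U2
import Pool.Agent.Helper44.RA.V1

/-! Project ZB: the core inequality at the real place, for an abstract set of points. -/

set_option autoImplicit false

namespace Pool.ZB

open Finset Pool.RA

variable {ι : Type} [Fintype ι]

/-- The vector of the point `v`. -/
def pvec (k x : ι → ℤ) (v : ℤ × ℤ) : ι → ℤ := v.1 • x - v.2 • k

theorem nmR_pvec (r : ι → ℕ) (k x : ι → ℤ) (al w L : ℝ)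
    (hw : nmR r (fun i => (x i : ℝ) - al * (k i : ℝ)) ≤ w) (hk : nm r k ≤ 2 * L) (v : ℤ × ℤ) :
    nm r (pvec k x v) ≤ |(v.1 : ℝ)| * w + 2 * L * |(v.1 : ℝ) * al - v.2| := by
  have e : (fun i => (pvec k x v i : ℝ)) =
      (v.1 : ℝ) • (fun i => (x i : ℝ) - al * (k i : ℝ)) +
        ((v.1 : ℝ) * al - v.2) • (fun i => (k i : ℝ)) := by
    funext i
    simp only [pvec, Pi.sub_apply, Pi.smul_apply, Pi.add_apply, smul_eq_mul, Int.cast_sub,
      Int.cast_mul, zsmul_eq_mul, Pi.mul_apply, Pi.intCast_apply, Int.cast_id]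
    ring
  unfold nm
  rw [e]
  refine (nmR_add_le _ _ _).trans ?_
  rw [nmR_smul, nmR_smul]
  have h1 := mul_le_mul_of_nonneg_left hw (abs_nonneg (v.1 : ℝ))
  have h2 := mul_le_mul_of_nonneg_left hk (abs_nonneg ((v.1 : ℝ) * al - v.2))
  unfold nm at h2
  linarith

theorem lam_pvec (r : ι → ℕ) (k x : ι → ℤ) (al w L : ℝ)
    (hw : |lamR r (fun i => (x i : ℝ) - al * (k i : ℝ))| ≤ w) (hk : |lam r k| ≤ 2 * L)
    (v : ℤ × ℤ) :
    |lam r (pvec k x v)| ≤ |(v.1 : ℝ)| * w + 2 * L * |(v.1 : ℝ) * al - v.2| := by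
  have e : lam r (pvec k x v) = (v.1 : ℝ) * lamR r (fun i => (x i : ℝ) - al * (k i : ℝ)) +
      ((v.1 : ℝ) * al - v.2) * lam r k := by
    unfold lam lamR
    rw [Finset.mul_sum, Finset.mul_sum, ← Finset.sum_add_distrib]
    refine Finset.sum_congr rfl fun i _ => ?_
    simp only [pvec, Pi.sub_apply, Pi.smul_apply, smul_eq_mul, Int.cast_sub, Int.cast_mul]
    ring
  rw [e]
  refine (abs_add_le _ _).trans ?_
  rw [abs_mul, abs_mul]
  have h1 := mul_le_mul_of_nonneg_left hw (abs_nonneg (v.1 : ℝ))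
  have h2 := mul_le_mul_of_nonneg_left hk (abs_nonneg ((v.1 : ℝ) * al - v.2))
  linarith

theorem lam_pvec_eq (r : ι → ℕ) (k x : ι → ℤ) (v : ℤ × ℤ) :
    lam r (pvec k x v) = (v.1 : ℝ) * lam r x - (v.2 : ℝ) * lam r k := by
  unfold pvec
  rw [lam_sub, lam_zsmul, lam_zsmul]

theorem log_nu_pvec (r : ι → ℕ) (hr : ∀ i, 1 ≤ r i) (y : ι → ℤ) (h : ℝ) (h1 : nm r y ≤ h)
    (h2 : |lam r y| ≤ h) : (Nu r y : ℝ) ≤ Real.exp h ∧ (De r y : ℝ) ≤ Real.exp h := by
  have e1 := log_nu_add r hr y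
  have e2 := lam_eq r hr y
  have h3 := abs_le.1 h2
  have hN : (0 : ℝ) < Nu r y := by exact_mod_cast nu_pos r hr y
  have hD : (0 : ℝ) < De r y := by exact_mod_cast de_pos r hr y
  rw [← Real.log_le_iff_le_exp hN, ← Real.log_le_iff_le_exp hD]
  constructor <;> linarith [h3.1, h3.2]

/-- The inequality at the real place from the rows. -/
theorem real_ineq (r : ι → ℕ) (hr : ∀ i, (r i).Prime) (hrinj : Function.Injective r)
    (k x : ι → ℤ) (hx : x ≠ 0) (L w I Lam al M : ℝ)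
    (hwx : nmR r (fun i => (x i : ℝ) - al * (k i : ℝ)) ≤ w)
    (hwl : |lamR r (fun i => (x i : ℝ) - al * (k i : ℝ))| ≤ w)
    (hk : nm r k ≤ 2 * L) (hlk : |lam r k| ≤ Real.exp (-I)) (hL1 : Real.exp (-I) ≤ 2 * L)
    (hlx : 2 * |lam r x| ≤ Real.exp (-Lam)) (hLam : 0 < Lam) (hI : 0 ≤ I)
    (C : Finset (ℤ × ℤ)) (hinj : Set.InjOn Prod.fst (C : Set (ℤ × ℤ))) (X : ℝ) (hX : 0 < X)
    (hcard : X ≤ (C.card : ℝ)) (sh : ℤ × ℤ → ℤ × ℤ) (hsh1 : ∀ v, sh v = (v.1 + 1, v.2)) (C0 : ℕ)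
    (hC0 : ∀ v ∈ C ∪ C.image sh, |(v.1 : ℝ)| ≤ C0)
    (hM : ∀ v ∈ C ∪ C.image sh, |(v.2 : ℝ)| ≤ M) (hM1 : 1 ≤ M) (hMI : M * Real.exp (-I) ≤ 1) :
    ∃ A : ℕ, X / 2 ≤ (A : ℝ) + 1 ∧ (A : ℝ) + 1 ≤ X / 2 + 1 ∧
      I * ((A : ℝ) + 1) - I ^ 2 / (4 * Lam) ≤
        2 * ((A : ℝ) + 1) * (2 * Real.log (3 * (A : ℝ) + (2 * C0 : ℕ) + 3) +
          2 * ((A : ℝ) + (2 * C0 : ℕ)) + ((2 * C0 : ℕ) : ℝ) + Real.log (2 * M)) +
        ∑ v ∈ C ∪ C.image sh, (|(v.1 : ℝ)| * w + 2 * L * |(v.1 : ℝ) * al - v.2|) := by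
  have hr1 : ∀ i, 1 ≤ r i := fun i => (hr i).one_le
  have hw0 : 0 ≤ w := (abs_nonneg _).trans hwl
  have hL0 : 0 ≤ 2 * L := (Real.exp_pos _).le.trans hL1
  set ln : ℤ × ℤ → ℝ := fun v => |(v.1 : ℝ)| * w + 2 * L * |(v.1 : ℝ) * al - v.2| with hln
  have hln0 : ∀ v, 0 ≤ ln v := fun v => by
    simp only [hln]
    positivity
  set R : ℤ × ℤ → ℚ := fun v => (Nu r (pvec k x v) : ℚ) / (De r (pvec k x v) : ℚ) with hR
  have hR0 : ∀ v, R v ≠ 0 := fun v => by
    have h1 := nu_pos r hr1 (pvec k x v)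
    have h2 := de_pos r hr1 (pvec k x v)
    simp only [hR]
    positivity
  set ρ : ℚ := (Nu r x : ℚ) / (De r x : ℚ) with hρ
  have hρ1 : ρ ≠ 1 := by
    intro h
    have h2 := de_pos r hr1 x
    have h3 : (De r x : ℚ) ≠ 0 := by exact_mod_cast h2.ne'
    rw [hρ, div_eq_one_iff_eq h3] at h
    exact hx (eq_zero_of_nu_eq_de r hr hrinj x (by exact_mod_cast h))
  have hshR : ∀ v, R (sh v) = ρ * R v := by
    intro v
    simp only [hR, hρ]
    rw [← ratio_add r hr1]
    have e : pvec k x (sh v) = x + pvec k x v := by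
      unfold pvec
      rw [hsh1]
      simp only [add_smul, one_smul]
      abel
    rw [e]
  obtain ⟨A, f, hf, hfC, hfnn, hdet, hA1, hA2, hsum⟩ := rows_exist sh
    (fun v => by rw [hsh1]) C hinj X hX hcard ln hln0 R hR0 ρ hρ1 hshR C0 hC0
  refine ⟨A, hA1, hA2, ?_⟩
  set e : Col A → ℕ := fun i => ((f i).1 + C0).toNat with he
  have heq : ∀ i, ((e i : ℕ) : ℝ) = ((f i).1 : ℝ) + C0 := by
    intro i
    have h1 : ((e i : ℕ) : ℤ) = (f i).1 + C0 := Int.toNat_of_nonneg (hfnn i)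
    have h2 : (((e i : ℕ) : ℤ) : ℝ) = (((f i).1 + C0 : ℤ) : ℝ) := by rw [h1]
    push_cast at h2
    exact h2
  have heE : ∀ i, e i ≤ 2 * C0 := by
    intro i
    have h1 := le_of_abs_le (hC0 (f i) (hfC i))
    have h2 : ((e i : ℕ) : ℝ) ≤ ((2 * C0 : ℕ) : ℝ) := by
      rw [heq]
      push_cast
      linarith
    exact_mod_cast h2
  set u : Col A → ℤ := fun i => (De r (pvec k x (f i)) : ℤ) with hu
  set v : Col A → ℤ := fun i => (Nu r (pvec k x (f i)) : ℤ) with hv
  have hupos : ∀ i, (0 : ℝ) < u i := by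
    intro i
    have := de_pos r hr1 (pvec k x (f i))
    simp only [hu]
    exact_mod_cast this
  have hlen : ∀ i, (Nu r (pvec k x (f i)) : ℝ) ≤ Real.exp (ln (f i)) ∧
      (De r (pvec k x (f i)) : ℝ) ≤ Real.exp (ln (f i)) := by
    intro i
    exact log_nu_pvec r hr1 _ _ (nmR_pvec r k x al w L hwx hk (f i))
      (lam_pvec r k x al w L hwl (hlk.trans hL1) (f i))
  have hdet' : (bmat A e u v).det ≠ 0 := by
    refine bmat_det_ne_of_rmat A e u v (fun i h => ?_) ?_
    · have := hupos i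
      rw [h] at this
      simp at this
    · have e1 : (fun i => (v i : ℚ) / (u i : ℚ)) = fun i => R (f i) := by
        funext i
        simp only [hu, hv, hR]
        push_cast
        rfl
      rw [e1]
      exact hdet
  have hlx1 : |lam r x| ≤ 1 := by
    have h1 : Real.exp (-Lam) ≤ 1 := by
      rw [Real.exp_le_one_iff]
      linarith
    have h2 := abs_nonneg (lam r x)
    linarith
  have hlM : 0 ≤ Real.log (2 * M) := Real.log_nonneg (by linarith)
  set E : ℝ := ((2 * C0 : ℕ) : ℝ) with hE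
  have hE0 : 0 ≤ E := by
    rw [hE]
    positivity
  have hmain := E_real A (2 * C0) e heE u v (Real.exp (lam r x)) (Real.exp (C0 * lam r x)) I Lam
    (Real.exp_pos _) (by
      rw [Real.log_exp, abs_mul, Nat.abs_cast]
      have h1 : (C0 : ℝ) * |lam r x| ≤ C0 * 1 := mul_le_mul_of_nonneg_left hlx1 (by positivity)
      push_cast
      have h2 : (0 : ℝ) ≤ C0 := by positivity
      linarith) (by
      refine (Real.abs_exp_sub_one_le hlx1).trans hlx) hLam hI
    (fun i => ln (f i) + E + Real.log (2 * M)) (fun i => by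
      rw [abs_of_pos (hupos i)]
      have h1 := (hlen i).2
      simp only [hu]
      push_cast
      refine h1.trans (Real.exp_le_exp.2 ?_)
      linarith) (fun i => by
      -- the approximation
      have e1 : (v i : ℝ) = (u i : ℝ) * Real.exp (lam r (pvec k x (f i))) := by
        have h1 := lam_eq r hr1 (pvec k x (f i))
        have hN : (0 : ℝ) < Nu r (pvec k x (f i)) := by
          exact_mod_cast nu_pos r hr1 (pvec k x (f i))
        have hD : (0 : ℝ) < De r (pvec k x (f i)) := by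
          exact_mod_cast de_pos r hr1 (pvec k x (f i))
        rw [h1, Real.exp_sub, Real.exp_log hN, Real.exp_log hD]
        simp only [hu, hv]
        push_cast
        field_simp
      have e2 : Real.exp (lam r x) ^ (e i) = Real.exp ((e i : ℝ) * lam r x) := by
        rw [← Real.exp_nat_mul]
      have e3 : Real.exp (C0 * lam r x) * (v i : ℝ) - Real.exp (lam r x) ^ (e i) * (u i : ℝ) =
          Real.exp ((e i : ℝ) * lam r x) * (u i : ℝ) *
            (Real.exp (-((f i).2 : ℝ) * lam r k) - 1) := by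
        rw [e1, e2, lam_pvec_eq, heq]
        have h1 : Real.exp (C0 * lam r x) * ((u i : ℝ) *
            Real.exp (((f i).1 : ℝ) * lam r x - ((f i).2 : ℝ) * lam r k)) =
            (u i : ℝ) * Real.exp ((((f i).1 : ℝ) + C0) * lam r x + -((f i).2 : ℝ) * lam r k) := by
          rw [mul_left_comm, ← Real.exp_add]
          congr 2
          ring
        rw [h1, Real.exp_add]
        ring
      rw [e3, abs_mul, abs_mul, abs_of_pos (Real.exp_pos _), abs_of_pos (hupos i)]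
      have hmu : |-((f i).2 : ℝ) * lam r k| ≤ M * Real.exp (-I) := by
        rw [abs_mul, abs_neg]
        exact mul_le_mul (hM (f i) (hfC i)) hlk (abs_nonneg _) (by linarith)
      have h4 : |Real.exp (-((f i).2 : ℝ) * lam r k) - 1| ≤ 2 * (M * Real.exp (-I)) :=
        (Real.abs_exp_sub_one_le (hmu.trans hMI)).trans
          (mul_le_mul_of_nonneg_left hmu (by norm_num))
      have h5 : Real.exp ((e i : ℝ) * lam r x) ≤ Real.exp E := by
        rw [Real.exp_le_exp]
        have h6 : ((e i : ℕ) : ℝ) ≤ E := by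
          rw [hE]
          exact_mod_cast heE i
        have h7 : (e i : ℝ) * lam r x ≤ (e i : ℝ) * 1 :=
          mul_le_mul_of_nonneg_left (le_of_abs_le hlx1) (by positivity)
        linarith
      have h6 : (u i : ℝ) ≤ Real.exp (ln (f i)) := by
        have := (hlen i).2
        simp only [hu]
        push_cast
        exact this
      have h7 : Real.exp (ln (f i) + E + Real.log (2 * M) - I) =
          Real.exp E * Real.exp (ln (f i)) * (2 * (M * Real.exp (-I))) := by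
        rw [show ln (f i) + E + Real.log (2 * M) - I = E + ln (f i) + Real.log (2 * M) + -I by ring,
          Real.exp_add, Real.exp_add, Real.exp_add, Real.exp_log (by linarith)]
        ring
      rw [h7]
      refine mul_le_mul ?_ h4 (abs_nonneg _) (by positivity)
      exact mul_le_mul h5 h6 (hupos i).le (Real.exp_pos _).le) hdet'
  have hcardC : Fintype.card (Col A) = 2 * (A + 1) := by
    rw [Fintype.card_sum, Fintype.card_fin]
    ring
  have hS : ∑ i : Col A, (ln (f i) + E + Real.log (2 * M)) =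
      ∑ i, ln (f i) + 2 * ((A : ℝ) + 1) * (E + Real.log (2 * M)) := by
    rw [Finset.sum_congr rfl fun i _ => add_assoc (ln (f i)) E (Real.log (2 * M)),
      Finset.sum_add_distrib, Finset.sum_const, card_univ, hcardC, nsmul_eq_mul]
    push_cast
    ring
  rw [hS] at hmain
  refine hmain.trans ?_
  have h8 : 2 * ((A : ℝ) + 1) * (2 * Real.log (3 * (A : ℝ) + (2 * C0 : ℕ) + 3) +
      2 * ((A : ℝ) + (2 * C0 : ℕ)) + E + Real.log (2 * M)) =
      2 * ((A : ℝ) + 1) * (2 * Real.log (3 * (A : ℝ) + (2 * C0 : ℕ) + 3) +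
        2 * ((A : ℝ) + (2 * C0 : ℕ))) + 2 * ((A : ℝ) + 1) * (E + Real.log (2 * M)) := by ring
  rw [h8]
  linarith

end Pool.ZB
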